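import Pool.Agent.FLX.Stmts

/-!
# Prescribed Q-curvature on `S^4` up to diffeomorphisms: definitions
-/

set_option autoImplicit false

open scoped InnerProductSpace Topology ContDiff Manifold
open MeasureTheory Filter Set

noncomputable section

namespace Pool.Agent.DIF

open Pool.Agent.Helper42_Paneitz Pool.Agent.Helper82_Vir Pool.Agent.FLX

/-- the differential at `b = 0` of `b ↦ ∫ q (mob b y) • y` -/
def Mg (q : S4 → ℝ) (b : E5) : E5 :=
  (5 : ℝ) • (∫ y : S4, (q y * ⟪b, (y : E5)⟫_ℝ) • (y : E5) ∂sig) - (∫ y : S4, q y ∂sig) • b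

/-- smooth diffeomorphisms of the sphere -/
def Dif (φ : S4 → S4) : Prop := ∃ ψ : S4 ≃ₘ^∞⟮𝓡 4, 𝓡 4⟯ S4, ∀ x, ψ x = φ x

/-- normalization, as a map into the sphere -/
def nrmz (v : E5) (x : S4) : S4 := if h : v ≠ 0 then ⟨‖v‖⁻¹ • v, normalize_mem h⟩ else x

/-- the projective map which stretches the direction `p` by the factor `l` -/
def prj (p : E5) (l : ℝ) (x : S4) : S4 :=
  nrmz ((x : E5) + ((l - 1) * ⟪p, (x : E5)⟫_ℝ) • p) x

/-- the angle: tends to `0` for `s > 0` and to `π` for `s < 0` as `k → ∞` -/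
def ang (k s : ℝ) : ℝ := Real.pi / 2 - Real.arctan (k * s)

/-- the rotation in the plane of `p, q` by the angle `ang k <n, x>` -/
def rsh (p q n : E5) (k : ℝ) (x : S4) : S4 :=
  nrmz (rot p q (ang k ⟪n, (x : E5)⟫_ℝ) (x : E5)) x

/-- the composition used in the theorem -/
def phi (p q n : E5) (k : ℕ) (x : S4) : S4 :=
  mob ((9 / 10 : ℝ) • p) (prj p (k + 1) (mob (-((9 / 10 : ℝ) • p)) (rsh p q n k x)))

/-- the set `9/10 < sgn <n, y> <p, y>` -/
def AA (p n : E5) : Set S4 :=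
  {y | (0 < ⟪n, (y : E5)⟫_ℝ ∧ 9 / 10 < ⟪p, (y : E5)⟫_ℝ) ∨
    (⟪n, (y : E5)⟫_ℝ < 0 ∧ ⟪p, (y : E5)⟫_ℝ < -(9 / 10))}

open Classical in
/-- its indicator function -/
def ind (p n : E5) (y : S4) : ℝ := if y ∈ AA p n then 1 else 0

end Pool.Agent.DIF
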