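import Pool.Agent.DIF.Defs

/-!
# Squad DIF (MP_5f32e0_gt): the Kazdan-Warner type theorem, statements

THEOREM. For smooth `Q` on `S^4` there is a smooth diffeomorphism `φ` of `S^4` such that `Q ∘ φ` is a
Paneitz curvature if and only if `Q` is positive somewhere.
The proof of each row is in its docstring.
-/

set_option autoImplicit false

open scoped InnerProductSpace Topology ContDiff Manifold
open MeasureTheory Filter Set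

noncomputable section

namespace Pool.Agent.DIF

open Pool.Agent.Helper42_Paneitz Pool.Agent.Helper82_Vir Pool.Agent.FLX

/-- EXQ. Uses MOA, MOS, MOM. `f z = q z * (mob (-b) z)_i * Jac (-b) z` has `f (mob b y) Jac b y =
q (mob b y) y_i`, so `∫ q (mob b y) • y = ∫ (q z Jac (-b) z) • mob (-b) z`; with `t = <b,z>`,
`Jac (-b) z • mob (-b) z = cA |b| t • z - cB |b| t • b`, and `|cA - (1 + 5 t)| ≤ 1696 |b|²`,
`|cB - 1| ≤ 512 |b|` (`Helper10_FLX/Exp.lean`: `cA_est`, `cB_est`, `exp_`). `∫ |q| ≤ √msig N2 q`. -/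
def ExqStmt : Prop :=
  ∃ C : ℝ, 0 ≤ C ∧ ∀ (q : S4 → ℝ) (b : E5), Continuous q → ‖b‖ ≤ 1 / 2 →
    ‖(∫ y : S4, q (mob b y) • (y : E5) ∂sig) - (∫ y : S4, q y • (y : E5) ∂sig) - Mg q b‖ ≤
      C * ‖b‖ ^ 2 * N2 q

/-- CRG (helper40 or adaptation of `Helper40_FLX/Cor.lean`). Uses KER, REA, FIX, XIS, SYM, L2B, MOS,
MOI, NLE, EXQ. On the closed ball of radius `ρ`: `qb b = q ∘ mob b`, `N2 (qb b) ≤ 3 e`, `H` from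
FIX, `B b = ∫ Nn (qb b) (H b) y • y`, `‖B b - Mg q b‖ ≤ C e² + c₀ e + C ρ² e ≤ κ e ρ` for
`ρ = min (1/2) (κ/(3C))`, `c₀ = κ ρ / 3`, `e₀` small. `Mg q` is linear and injective with
`κ e ‖b‖ ≤ ‖Mg q b‖`, so it has an inverse `N` with `‖N v‖ ≤ ‖v‖ / (κ e)`; Brouwer for
`b ↦ b - N (B b)`; then `finish` and MOI. -/
def CrgStmt : Prop :=
  ∀ κ : ℝ, 0 < κ → ∃ e₀ c₀ : ℝ, 0 < e₀ ∧ 0 < c₀ ∧ ∀ (e : ℝ) (q : S4 → ℝ), 0 < e → e ≤ e₀ →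
    Continuous q → N2 q ≤ e → ‖∫ y : S4, q y • (y : E5) ∂sig‖ ≤ c₀ * e →
    (∀ b : E5, κ * e * ‖b‖ ≤ ‖Mg q b‖) → ∃ w : S4 → ℝ, IE (fun x => 6 + q x) w

/-- GAP. `ind p n (-y) = ind p n y`, so `∫ ind y • y = 0` (`integral_act` for the isometry `-1`,
`LinearIsometryEquiv.neg`; or `measurePreserving_act`). With `J b = 2 <p,b> p - b`, `‖J b‖ = ‖b‖`:
`<J b, Mg (ind) b> = ∫ ind y (b_p² (5 y_p² - 1) + |b'|² - 5 <b', y>²)`, `b = b_p p + b'`,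
and for `y ∈ AA`: `y_p² > 81/100`, `<b', y>² ≤ |b'|² (1 - y_p²) ≤ (19/100) |b'|²`, so the integrand
is at least `(1/20) ind y |b|²`; `κ = sig(AA)/20 > 0` because `AA` contains the nonempty open set
`{0 < <n,y>, 9/10 < <p,y>} ∋ (19/20) p + √(1 - (19/20)²) n`. -/
def GapStmt : Prop :=
  ∀ p n : E5, ‖p‖ = 1 → ‖n‖ = 1 → ⟪p, n⟫_ℝ = 0 → MeasurableSet (AA p n) ∧
    (∫ y : S4, ind p n y • (y : E5) ∂sig = 0) ∧
    ∃ κ : ℝ, 0 < κ ∧ ∀ b : E5, κ * ‖b‖ ≤ ‖Mg (ind p n) b‖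

/-- GEN. Uses CRG, GAP. `r = q - e ind`, `N2 r ≤ c₁ e`, `N2 q ≤ N2 r + e √msig ≤ C e` with
`C = 1 + √msig`, `‖∫ q y‖ = ‖∫ r y‖ ≤ √msig c₁ e`, `‖Mg q b - e Mg ind b‖ ≤ 6 √msig N2 r ‖b‖`. Apply
CRG with `C e` in place of `e` and `κ/(2C)` in place of `κ`. -/
def GenStmt : Prop :=
  ∀ p n : E5, ‖p‖ = 1 → ‖n‖ = 1 → ⟪p, n⟫_ℝ = 0 → ∃ e₀ c₁ : ℝ, 0 < e₀ ∧ 0 < c₁ ∧
    ∀ (e : ℝ) (q : S4 → ℝ), 0 < e → e ≤ e₀ → Continuous q →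
    N2 (fun y => q y - e * ind p n y) ≤ c₁ * e → ∃ w : S4 → ℝ, IE (fun x => 6 + q x) w

/-- SMO. Smooth maps into the sphere (`ContMDiff.codRestrict_sphere`, `fact_E5`,
`contMDiff_coe_S4` in `Helper42_Paneitz/Smooth.lean`), diffeomorphisms from smooth inverses, and
composition (`Diffeomorph.trans`). The last part: `sm_of_contMDiff`, `contMDiff_of_sm`. -/
def SmoStmt : Prop :=
  (∀ (F : E5 → E5) (φ : S4 → S4), (∀ x : S4, ContDiffAt ℝ ∞ F (x : E5)) →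
    (∀ x : S4, (φ x : E5) = F (x : E5)) → ContMDiff (𝓡 4) (𝓡 4) ∞ φ) ∧
  (∀ φ ψ : S4 → S4, ContMDiff (𝓡 4) (𝓡 4) ∞ φ → ContMDiff (𝓡 4) (𝓡 4) ∞ ψ →
    (∀ x, φ (ψ x) = x) → (∀ x, ψ (φ x) = x) → Dif φ) ∧
  (∀ φ ψ : S4 → S4, Dif φ → Dif ψ → Dif (fun x => φ (ψ x))) ∧
  (∀ (Q : S4 → ℝ) (φ : S4 → S4), Sm Q → Dif φ → Sm (fun x => Q (φ x)))

/-- DMB. Uses MOA, SMO. The inverse of `mob b` is `mob (-b)` (`- - b = b`). -/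
def DmbStmt : Prop := ∀ b : E5, ‖b‖ < 1 → Dif (mob b)

/-- DPR. Uses SMO. The vector is never `0` (`l > 0`); the inverse is `prj p l⁻¹`. The inner product
formula: `<p, v> = l <p, x>` for `v = x + (l - 1) <p,x> p`. -/
def DprStmt : Prop :=
  ∀ (p : E5) (l : ℝ), ‖p‖ = 1 → 0 < l → Dif (prj p l) ∧
    ∀ x : S4, (x : E5) + ((l - 1) * ⟪p, (x : E5)⟫_ℝ) • p ≠ 0 ∧ (prj p l x : E5) =
      ‖(x : E5) + ((l - 1) * ⟪p, (x : E5)⟫_ℝ) • p‖⁻¹ • ((x : E5) + ((l - 1) * ⟪p, (x : E5)⟫_ℝ) • p)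

/-- DRS. Uses SMO. `norm_rot`; the inverse is the rotation by the opposite angle (`<n, ·>` is not
changed because `n` is orthogonal to `p, q`), which is `rsh q p n k`; smoothness: `rot` is
a polynomial expression in `cos`, `sin` of the angle. -/
def DrsStmt : Prop :=
  ∀ (p q n : E5) (k : ℝ), ‖p‖ = 1 → ‖q‖ = 1 → ⟪p, q⟫_ℝ = 0 → ⟪p, n⟫_ℝ = 0 → ⟪q, n⟫_ℝ = 0 →
    Dif (rsh p q n k) ∧
    ∀ x : S4, (rsh p q n k x : E5) = rot p q (ang k ⟪n, (x : E5)⟫_ℝ) (x : E5)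

/-- LIM. Uses MOA, DPR, DRS. `ang k s → 0` for `s > 0`, `→ π` for `s < 0`; so
`<p, rsh x> = cos · <p,x> - sin · <q,x>` tends to `t = sgn <n,x> <p,x> ≠ 9/10`; for
`z = mob (-(9/10) p) (rsh x)`: `<p, z> = (t' - 9/10)/(1 - 9/10 t')`, `t' → t`, so for large `k`
`<p, z>` has the sign of `t - 9/10` and `|<p,z>| ≥ c > 0`; then `prj p (k+1) z → ± p`
(`|z + k z_p p - (k+1) z_p p| ≤ 1`, norm `≥ (k + 1)|z_p|`), and `mob ((9/10) p)` is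
continuous (MOS) and fixes `± p`. -/
def LimStmt : Prop :=
  ∀ (p q n : E5), ‖p‖ = 1 → ‖q‖ = 1 → ‖n‖ = 1 → ⟪p, q⟫_ℝ = 0 → ⟪p, n⟫_ℝ = 0 → ⟪q, n⟫_ℝ = 0 →
    ∀ P N : S4, (P : E5) = p → (N : E5) = -p → ∀ x : S4, ⟪n, (x : E5)⟫_ℝ ≠ 0 →
    ⟪p, (x : E5)⟫_ℝ ≠ 9 / 10 → ⟪p, (x : E5)⟫_ℝ ≠ -(9 / 10) →
    (x ∈ AA p n → Tendsto (fun k : ℕ => phi p q n k x) atTop (𝓝 P)) ∧
    (x ∉ AA p n → Tendsto (fun k : ℕ => phi p q n k x) atTop (𝓝 N))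

/-- LTW. Uses LIM, DMB, DPR, DRS (continuity of `phi`). Dominated convergence; the sets
`<n,x> = 0`, `<p,x> = ± 9/10` are null sets (`Helper88_FLX/Slice.lean`, `map_inner`: the distribution
of `<x, y>` is absolutely continuous). -/
def LtwStmt : Prop :=
  ∀ (p q n : E5), ‖p‖ = 1 → ‖q‖ = 1 → ‖n‖ = 1 → ⟪p, q⟫_ℝ = 0 → ⟪p, n⟫_ℝ = 0 → ⟪q, n⟫_ℝ = 0 →
    ∀ P N : S4, (P : E5) = p → (N : E5) = -p → ∀ Q : S4 → ℝ, Continuous Q →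
    Tendsto (fun k : ℕ => N2 (fun x => Q (phi p q n k x) - Q N - (Q P - Q N) * ind p n x)) atTop
      (𝓝 0)

/-- PTS. `S4` is connected and compact: `P₁` a maximum point, `v < Q P₁` another value; choose
`0 < e ≤ e₀` with `Q P₁ / (1 + e/6) > max v 0`, and `P₂` by the intermediate value theorem. -/
def PtsStmt : Prop :=
  ∀ (Q : S4 → ℝ) (e₀ : ℝ), Continuous Q → (∃ x, 0 < Q x) → (∃ x y, Q x ≠ Q y) → 0 < e₀ →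
    ∃ (P₁ P₂ : S4) (e : ℝ), 0 < e ∧ e ≤ e₀ ∧ 0 < Q P₂ ∧ Q P₁ = (1 + e / 6) * Q P₂ ∧ P₁ ≠ P₂

/-- MID. Uses MOA, SMO, DMB. `b = (P₁ + P₂)/2`, `v = (P₁ - P₂)/|P₁ - P₂|`: `<b, v> = 0`,
`|b|² + |P₁ - P₂|²/4 = 1`, so `sq b = |P₁ - P₂|/2` and `mobE b (± v) = b ± sq b v`, i.e. `P₁, P₂`.
`φ = mob b ∘ act R` with a linear isometry `R P = v` (`Submodule.reflection_sub`); `act R` is a
diffeomorphism by SMO. -/
def MidStmt : Prop :=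
  ∀ P N P₁ P₂ : S4, (N : E5) = -(P : E5) → P₁ ≠ P₂ →
    ∃ φ : S4 → S4, Dif φ ∧ φ P = P₁ ∧ φ N = P₂

/-- ASD. Uses GEN, SMO, DMB, DPR, DRS, LTW, PTS, MID, FIN. `p = ee 0`, `q = ee 1`, `n = ee 2`,
`P = pt 0`, `N = -P`. If `Q` is constant: `φ = id`, `u = log (6 / c) / 4` constant. Otherwise
let `e₀, c₁` be as in GEN and `P₁, P₂, e` as in PTS, `φ₁` as in MID, `Q' = (6 / Q P₂) Q ∘ φ₁`, so
`Q' P = 6 + e`, `Q' N = 6`. By LTW `N2 (Q' ∘ phi k - 6 - e ind) → 0`; take `k` with the value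
`≤ c₁ e` and apply GEN to `q = Q' ∘ phi k - 6`, and FIN (`Sm` by SMO). Scaling: `H54.scale` in
`Helper54_FLX/Asm.lean`. `φ = φ₁ ∘ phi k`. -/
def AsdStmt : Prop :=
  ∀ Q : S4 → ℝ, Sm Q → (∃ x, 0 < Q x) →
    ∃ φ : S4 → S4, Dif φ ∧ IsPaneitzCurvature (fun x => Q (φ x))

end Pool.Agent.DIF
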